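import Pool.Agent.U409.OA.Stm3

/-! Project OA, package CB: configurations are matrices. -/

set_option autoImplicit false

namespace Pool.Agent.U111.OA

open Finset Pool.Agent.U409.OA

theorem bz_dec {x : ℤ} (h : x = 0 ∨ x = 1) : bz (decide (x = 1)) = x := by
  rcases h with h | h
  · subst h
    rfl
  · subst h
    rfl

theorem bz_inj {a b : Bool} (h : bz a = bz b) : a = b := by
  revert h
  cases a <;> cases b <;> simp [bz]

theorem dec_bz (r : Bool) : decide (bz r = 1) = r := by
  cases r <;> rfl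

theorem bz_zero_or (r : Bool) : bz r = 0 ∨ bz r = 1 := by
  cases r
  · exact Or.inl rfl
  · exact Or.inr rfl

theorem iic_sum {n : ℕ} (f : Fin n → ℤ) (k : Fin n) : ∑ j ∈ Iic k, f j = ∑ j, if j ≤ k then f j else 0 := by
  rw [← Finset.sum_filter]
  refine Finset.sum_congr ?_ fun _ _ => rfl
  ext j
  simp

theorem iic_zero {n : ℕ} (f : Fin (n + 1) → ℤ) : ∑ j ∈ Iic (0 : Fin (n + 1)), f j = f 0 := by
  rw [iic_sum, Fin.sum_univ_succ]
  have : ∑ j : Fin n, (if j.succ ≤ (0 : Fin (n + 1)) then f j.succ else 0) = 0 := by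
    refine Finset.sum_eq_zero fun j _ => ?_
    rw [if_neg]
    simp [Fin.le_def]
  rw [this]
  simp

theorem iic_succ {n : ℕ} (f : Fin (n + 1) → ℤ) (k : Fin n) :
    ∑ j ∈ Iic k.succ, f j = f 0 + ∑ j ∈ Iic k, f j.succ := by
  rw [iic_sum, iic_sum, Fin.sum_univ_succ, if_pos (Fin.zero_le _)]
  congr 1
  refine Finset.sum_congr rfl fun j _ => ?_
  simp [Fin.succ_le_succ_iff]

/-- the new states -/
def ns {N : ℕ} (c : Fin N → Bool) (v : Fin N → ℤ) : Fin N → Bool := fun j => decide (bz (c j) + v j = 1)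

/-- the matrix with first entry `a`, first row and column `v` and the rest `M` -/
def bld {N : ℕ} (a : ℤ) (v : Fin N → ℤ) (M : Matrix (Fin N) (Fin N) ℤ) : Matrix (Fin (N + 1)) (Fin (N + 1)) ℤ :=
  fun i j => Fin.cases (Fin.cases a v j) (fun i' => Fin.cases (v i') (fun j' => M i' j') j) i

theorem bld_00 {N : ℕ} (a : ℤ) (v : Fin N → ℤ) (M : Matrix (Fin N) (Fin N) ℤ) : bld a v M 0 0 = a := rfl

theorem bld_0s {N : ℕ} (a : ℤ) (v : Fin N → ℤ) (M : Matrix (Fin N) (Fin N) ℤ) (j : Fin N) :
    bld a v M 0 j.succ = v j := rfl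

theorem bld_s0 {N : ℕ} (a : ℤ) (v : Fin N → ℤ) (M : Matrix (Fin N) (Fin N) ℤ) (i : Fin N) :
    bld a v M i.succ 0 = v i := rfl

theorem bld_ss {N : ℕ} (a : ℤ) (v : Fin N → ℤ) (M : Matrix (Fin N) (Fin N) ℤ) (i j : Fin N) :
    bld a v M i.succ j.succ = M i j := rfl

/-- the conditions on the parts of the matrix -/
def PP' {N : ℕ} (c : Fin N → Bool) (r : Bool) (v : Fin N → ℤ) (M : Matrix (Fin N) (Fin N) ℤ) : Prop :=
  v ∈ Ev N r c ∧ bz r + ∑ j, v j = 1 ∧ M ∈ Sy N (ns c v)

theorem forw {N : ℕ} {s : Fin (N + 1) → Bool} {M : Matrix (Fin (N + 1)) (Fin (N + 1)) ℤ} (h : M ∈ Sy (N + 1) s) :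
    PP' (fun i => s i.succ) (decide (bz (s 0) + M 0 0 = 1)) (fun j => M 0 j.succ) (fun i j => M i.succ j.succ) ∧
      bz (decide (bz (s 0) + M 0 0 = 1)) = bz (s 0) + M 0 0 := by
  obtain ⟨h1, h2, h3⟩ := h
  have k0 := h2 0 0
  rw [iic_zero] at k0
  have hr := bz_dec k0
  have hc : ∀ i : Fin N, bz (s i.succ) + M 0 i.succ = 0 ∨ bz (s i.succ) + M 0 i.succ = 1 := by
    intro i
    have := h2 i.succ 0
    rwa [iic_zero, h1 i.succ 0] at this
  have hn : ∀ i : Fin N, bz (ns (fun i => s i.succ) (fun j => M 0 j.succ) i) = bz (s i.succ) + M 0 i.succ :=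
    fun i => bz_dec (hc i)
  refine ⟨⟨⟨fun k => ?_, hc⟩, ?_, fun i j => h1 _ _, fun i k => ?_, fun i => ?_⟩, hr⟩
  · have := h2 0 k.succ
    rw [iic_succ, ← add_assoc] at this
    rwa [hr]
  · have := h3 0
    rw [Fin.sum_univ_succ, ← add_assoc] at this
    rwa [hr]
  · have := h2 i.succ k.succ
    rw [iic_succ, ← add_assoc, h1 i.succ 0] at this
    rwa [hn]
  · have := h3 i.succ
    rw [Fin.sum_univ_succ, ← add_assoc, h1 i.succ 0] at this
    rwa [hn]

theorem back {N : ℕ} {s : Fin (N + 1) → Bool} {r : Bool} {v : Fin N → ℤ} {M : Matrix (Fin N) (Fin N) ℤ}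
    (h : PP' (fun i => s i.succ) r v M) : bld (bz r - bz (s 0)) v M ∈ Sy (N + 1) s := by
  obtain ⟨⟨h1, h2⟩, h3, h4, h5, h6⟩ := h
  have hn : ∀ i : Fin N, bz (ns (fun i => s i.succ) v i) = bz (s i.succ) + v i := fun i => bz_dec (h2 i)
  refine ⟨?_, ?_, ?_⟩
  · intro i j
    refine Fin.cases ?_ (fun i' => ?_) i
    · refine Fin.cases rfl (fun j' => rfl) j
    · refine Fin.cases rfl (fun j' => ?_) j
      exact h4 i' j'
  · intro i k
    refine Fin.cases ?_ (fun i' => ?_) i
    · refine Fin.cases ?_ (fun k' => ?_) k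
      · rw [iic_zero, bld_00]
        have : bz (s 0) + (bz r - bz (s 0)) = bz r := by ring
        rw [this]
        exact bz_zero_or r
      · rw [iic_succ, bld_00]
        have : bz (s 0) + (bz r - bz (s 0) + ∑ j ∈ Iic k', bld (bz r - bz (s 0)) v M 0 j.succ) =
          bz r + ∑ j ∈ Iic k', v j := by
          simp only [bld_0s]
          ring
        rw [this]
        exact h1 k'
    · refine Fin.cases ?_ (fun k' => ?_) k
      · rw [iic_zero, bld_s0]
        exact h2 i'
      · rw [iic_succ, bld_s0, ← add_assoc, ← hn i']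
        exact h5 i' k'
  · intro i
    refine Fin.cases ?_ (fun i' => ?_) i
    · rw [Fin.sum_univ_succ, bld_00]
      have : bz (s 0) + (bz r - bz (s 0) + ∑ j : Fin N, bld (bz r - bz (s 0)) v M 0 j.succ) =
          bz r + ∑ j, v j := by
        simp only [bld_0s]
        ring
      rw [this]
      exact h3
    · rw [Fin.sum_univ_succ, bld_s0, ← add_assoc, ← hn i']
      exact h6 i'

theorem bld_parts {N : ℕ} {M : Matrix (Fin (N + 1)) (Fin (N + 1)) ℤ} (h1 : ∀ i j, M i j = M j i) (a : ℤ)
    (ha : a = M 0 0) : bld a (fun j => M 0 j.succ) (fun i j => M i.succ j.succ) = M := by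
  subst ha
  funext i j
  refine Fin.cases ?_ (fun i' => ?_) i
  · refine Fin.cases rfl (fun j' => rfl) j
  · refine Fin.cases ?_ (fun j' => rfl) j
    rw [bld_s0]
    exact h1 _ _

theorem t_CB (hCR : S_CR) : S_CB := by
  intro N
  induction N with
  | zero =>
    intro s
    have huniv : Sy 0 s = {0} := by
      ext M
      constructor
      · intro _
        rw [Set.mem_singleton_iff]
        funext i
        exact i.elim0
      · intro _
        exact ⟨fun i => i.elim0, fun i => i.elim0, fun i => i.elim0⟩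
    refine ⟨by rw [huniv]; exact Set.finite_singleton 0, ?_⟩
    intro R _ p e
    have : (show (Sy 0 s).Finite by rw [huniv]; exact Set.finite_singleton 0).toFinset = {0} := by
      ext M
      simp [huniv]
    rw [this]
    simp [Z]
  | succ N ih =>
    intro s
    choose hfS hS using ih
    have hE := fun r => hCR N r (fun i => s i.succ)
    choose hfE hE' using hE
    -- the index set
    set Q : Finset (Σ _ : Bool, Σ _ : Fin N → ℤ, Matrix (Fin N) (Fin N) ℤ) :=
      ((univ : Finset Bool).sigma fun r => (hfE r).toFinset.sigma fun v =>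
        (hfS (ns (fun i => s i.succ) v)).toFinset) with hQ
    set Q' := Q.filter fun x => bz x.1 + ∑ j, x.2.1 j = 1 with hQ'
    have memQ' : ∀ x, x ∈ Q' ↔ PP' (fun i => s i.succ) x.1 x.2.1 x.2.2 := by
      intro x
      rw [hQ', Finset.mem_filter, hQ, Finset.mem_sigma, Finset.mem_sigma, Set.Finite.mem_toFinset,
        Set.Finite.mem_toFinset]
      constructor
      · rintro ⟨⟨_, h1, h2⟩, h3⟩
        exact ⟨h1, h3, h2⟩
      · rintro ⟨h1, h3, h2⟩
        exact ⟨⟨Finset.mem_univ _, h1, h2⟩, h3⟩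
    have hfin : (Sy (N + 1) s).Finite := by
      refine (Q'.finite_toSet.image fun x => bld (bz x.1 - bz (s 0)) x.2.1 x.2.2).subset ?_
      intro M hM
      obtain ⟨h1, h2⟩ := forw hM
      refine ⟨⟨decide (bz (s 0) + M 0 0 = 1), fun j => M 0 j.succ, fun i j => M i.succ j.succ⟩, ?_, ?_⟩
      · exact (memQ' _).2 h1
      · refine bld_parts hM.1 _ ?_
        show bz (decide (bz (s 0) + M 0 0 = 1)) - bz (s 0) = M 0 0
        rw [h2]
        ring
    refine ⟨hfin, ?_⟩
    intro R _ p e
    rw [List.replicate_succ, List.ofFn_succ, Z]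
    have e1 : ∀ r : Bool, (if s 0 = r then p else e) *
        row (L := Unit) (fun _ _ r c r' c' => if adm r c r' c' then (1 : R) else 0) ()
          (List.replicate N ()) r (List.ofFn fun i => s i.succ)
          (fun t ss' => if t then Z (L := Unit) (fun _ _ r c r' c' => if adm r c r' c' then (1 : R) else 0)
            (fun _ a b => if a = b then p else e) (List.replicate N ()) ss' else 0) =
        ∑ v ∈ (hfE r).toFinset, ∑ M ∈ (hfS (ns (fun i => s i.succ) v)).toFinset,
          if bz r + ∑ j, v j = 1 then (if s 0 = r then p else e) * ∏ i, (if M i i = 0 then p else e) else 0 := by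
      intro r
      rw [hE' r R, Finset.mul_sum]
      refine Finset.sum_congr rfl fun v _ => ?_
      have e2 : (List.ofFn fun j => decide (bz (s (Fin.succ j)) + v j = 1)) =
        List.ofFn (ns (fun i => s i.succ) v) := rfl
      by_cases hc : bz r + ∑ j, v j = 1
      · simp only [hc, decide_true, if_true]
        rw [e2, hS (ns (fun i => s i.succ) v) R p e, Finset.mul_sum]
      · simp only [hc, decide_false, if_false, Bool.false_eq_true, mul_zero, Finset.sum_const_zero]
    rw [Finset.sum_congr rfl fun r _ => e1 r]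
    have e3 : ∑ r : Bool, ∑ v ∈ (hfE r).toFinset, ∑ M ∈ (hfS (ns (fun i => s i.succ) v)).toFinset,
          (if bz r + ∑ j, v j = 1 then (if s 0 = r then p else e) * ∏ i, (if M i i = 0 then p else e) else 0) =
        ∑ x ∈ Q', (if s 0 = x.1 then p else e) * ∏ i, (if x.2.2 i i = 0 then p else e) := by
      rw [hQ', Finset.sum_filter, hQ, Finset.sum_sigma]
      refine Finset.sum_congr rfl fun r _ => ?_
      rw [Finset.sum_sigma]
    rw [e3]
    refine Finset.sum_bij' (fun x _ => bld (bz x.1 - bz (s 0)) x.2.1 x.2.2)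
      (fun M _ => ⟨decide (bz (s 0) + M 0 0 = 1), fun j => M 0 j.succ, fun i j => M i.succ j.succ⟩) ?_ ?_ ?_ ?_ ?_
    · intro x hx
      rw [Set.Finite.mem_toFinset]
      exact back ((memQ' x).1 hx)
    · intro M hM
      rw [Set.Finite.mem_toFinset] at hM
      exact (memQ' _).2 (forw hM).1
    · intro x hx
      obtain ⟨r, v, M⟩ := x
      have : decide (bz (s 0) + bld (bz r - bz (s 0)) v M 0 0 = 1) = r := by
        rw [bld_00]
        have h1 : bz (s 0) + (bz r - bz (s 0)) = bz r := by ring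
        rw [h1]
        exact dec_bz r
      show (⟨decide (bz (s 0) + bld (bz r - bz (s 0)) v M 0 0 = 1), v, M⟩ :
        Σ _ : Bool, Σ _ : Fin N → ℤ, Matrix (Fin N) (Fin N) ℤ) = ⟨r, v, M⟩
      rw [this]
    · intro M hM
      rw [Set.Finite.mem_toFinset] at hM
      refine bld_parts hM.1 _ ?_
      show bz (decide (bz (s 0) + M 0 0 = 1)) - bz (s 0) = M 0 0
      rw [(forw hM).2]
      ring
    · intro x hx
      obtain ⟨r, v, M⟩ := x
      rw [Fin.prod_univ_succ]
      show (if s 0 = r then p else e) * ∏ i, (if M i i = 0 then p else e) =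
        (if bz r - bz (s 0) = 0 then p else e) * ∏ i, (if M i i = 0 then p else e)
      congr 1
      by_cases h : s 0 = r
      · rw [if_pos h, if_pos (by rw [h]; ring)]
      · rw [if_neg h, if_neg]
        intro h2
        exact h (bz_inj (by linarith))

end Pool.Agent.U111.OA
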